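import Pool.Agent.Lib.MP_0db9b2_pr.PT.Crit
import Pool.Agent.Lib.MP_0db9b2_pr.DefSol

/-
Convergence to equilibrium for the nonlinear parabolic Anderson model for every k ≥ 0, with the
phase diagram of the limit field.
-/

set_option autoImplicit false

open MeasureTheory ProbabilityTheory Filter
open scoped NNReal
open Pool.Agent.Lib.MP_0db9b2_pr

theorem Pool.Agent.Lib.MP_0db9b2_pr.Split.phase
    (d : ℕ) (hd : 1 ≤ d) (γ : ℕ) (hγ : 2 ≤ γ) :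
    ∃ ac : ℝ → ℝ, ac 0 = 1 / 2 ∧ (∀ k, 0 < k → 0 ≤ ac k ∧ ac k < 1 / 2) ∧
      Tendsto ac (nhdsWithin 0 (Set.Ioi 0)) (nhds (1 / 2)) ∧
      ∀ (ε : ℝ), 0 < ε → ∀ (k : ℝ), 0 ≤ k → ∀ (a : ℝ)
        {Ω : Type*} [mΩ : MeasurableSpace Ω] (P : Measure Ω) [IsProbabilityMeasure P]
        (F : Filtration ℝ≥0 mΩ) (w : (Fin d → ℤ) → ℝ≥0 → Ω → ℝ),
        (∀ x, IsBrownianReal (w x) P) →
        iIndepFun (fun x ω t => w x t ω) P →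
        (∀ x, Adapted F (w x)) →
        (∀ s : ℝ≥0, Indep (MeasurableSpace.comap
          (fun ω (x : Fin d → ℤ) (t : ℝ≥0) => w x (s + t) ω - w x s ω) inferInstance) (F s) P) →
        ∃ u : ℝ≥0 → (Fin d → ℤ) → Ω → ℝ, IsSolution P F w γ ε k a u ∧
          (∀ u', IsSolution P F w γ ε k a u' → ∀ᵐ ω ∂P, ∀ t x, u' t x ω = u t x ω) ∧
          ∃ (ν : Measure (ℝ≥0 × (Fin d → ℤ) → ℝ)) (_ : IsProbabilityMeasure ν),
            (∀ (s : ℝ≥0) (y : Fin d → ℤ),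
              MeasurePreserving (fun f (p : ℝ≥0 × (Fin d → ℤ)) => f (p.1 + s, p.2 + y)) ν ν) ∧
            (∀ A, MeasurableSet A → (∀ y : Fin d → ℤ,
              (fun f (p : ℝ≥0 × (Fin d → ℤ)) => f (p.1, p.2 + y)) ⁻¹' A =ᵐ[ν] A) →
                ν A = 0 ∨ ν A = 1) ∧
            (∀ I : Finset (ℝ≥0 × (Fin d → ℤ)),
              TendstoInDistribution (fun (t : ℝ≥0) ω (p : I) => u (t + p.1.1) p.1.2 ω) atTop
                (fun f (p : I) => f p) (fun _ => P) ν) ∧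
            ((∀ p, ∀ᵐ f ∂ν, f p = 0) ∨ ∀ p, ∀ᵐ f ∂ν, 0 < f p) ∧
            (ac k < a → ∀ p, ∀ᵐ f ∂ν, 0 < f p) ∧
            (a < ac k ∨ a ≤ 0 ∨ (k = 0 ∧ a ≤ 1 / 2) → ∀ p, ∀ᵐ f ∂ν, f p = 0) := by
  obtain ⟨b, rfl⟩ : ∃ b, γ = b + 1 := ⟨γ - 1, by omega⟩
  have hb : b ≠ 0 := by omega
  obtain ⟨ac, h1, h2, h3, h4⟩ := PT.exists_crit hd hb
  refine ⟨ac, h1, h2, h3, fun ε hε k hk a Ω mΩ P _ F w c1 c2 c3 c4 => ?_⟩
  have h : Noise P F w := ⟨c1, c2, c3, c4⟩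
  have hu := h.exists_sol (a := a) (b := b) hk hε.le
  obtain ⟨ν, pν, L, e1, e2, e3, e4, -⟩ := PT.phase_one hd h hu hk hε hb
  obtain ⟨e5, e6⟩ := h4 h hu hk hε
  refine ⟨_, ⟨hu.ad, hu.cont, hu.nonneg, hu.mom, hu.eqn⟩,
    fun u' h' => hu.unique h ⟨h'.1, h'.2.1, h'.2.2.1, h'.2.2.2.1, h'.2.2.2.2⟩ hk hε hb,
    ν, pν, L.inv, L.erg, L.conv, (em _).imp e1 e2, fun ha => e2 (e6 ha), fun ha => e1 ?_⟩
  rcases ha with ha | ha | ha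
  · exact e5 ha
  · exact e3 ha
  · exact (e4 ha.1).2 ha.2

/-- The statement without the phase diagram, as handed in before. -/
theorem Pool.Agent.Lib.MP_0db9b2_pr.Split.equilibrium
    (d : ℕ) (hd : 1 ≤ d) (γ : ℕ) (hγ : 2 ≤ γ) (ε : ℝ) (hε : 0 < ε) (k : ℝ) (hk : 0 ≤ k) (a : ℝ)
    {Ω : Type*} [mΩ : MeasurableSpace Ω] (P : Measure Ω) [IsProbabilityMeasure P]
    (F : Filtration ℝ≥0 mΩ)
    (w : (Fin d → ℤ) → ℝ≥0 → Ω → ℝ)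
    (w_brownian : ∀ x, IsBrownianReal (w x) P)
    (w_indep : iIndepFun (fun x ω t => w x t ω) P)
    (w_adapted : ∀ x, Adapted F (w x))
    (w_future : ∀ s : ℝ≥0, Indep (MeasurableSpace.comap
      (fun ω (x : Fin d → ℤ) (t : ℝ≥0) => w x (s + t) ω - w x s ω) inferInstance) (F s) P) :
    ∃ u : ℝ≥0 → (Fin d → ℤ) → Ω → ℝ, IsSolution P F w γ ε k a u ∧
      (∀ u', IsSolution P F w γ ε k a u' → ∀ᵐ ω ∂P, ∀ t x, u' t x ω = u t x ω) ∧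
      ∃ (ν : Measure (ℝ≥0 × (Fin d → ℤ) → ℝ)) (_ : IsProbabilityMeasure ν),
        (∀ (s : ℝ≥0) (y : Fin d → ℤ),
          MeasurePreserving (fun f (p : ℝ≥0 × (Fin d → ℤ)) => f (p.1 + s, p.2 + y)) ν ν) ∧
        (∀ A, MeasurableSet A → (∀ y : Fin d → ℤ,
          (fun f (p : ℝ≥0 × (Fin d → ℤ)) => f (p.1, p.2 + y)) ⁻¹' A =ᵐ[ν] A) →
            ν A = 0 ∨ ν A = 1) ∧
        ∀ I : Finset (ℝ≥0 × (Fin d → ℤ)),
          TendstoInDistribution (fun (t : ℝ≥0) ω (p : I) => u (t + p.1.1) p.1.2 ω) atTop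
            (fun f (p : I) => f p) (fun _ => P) ν := by
  obtain ⟨ac, -, -, -, h⟩ := Pool.Agent.Lib.MP_0db9b2_pr.Split.phase d hd γ hγ
  obtain ⟨u, h1, h2, ν, pν, h3, h4, h5, -⟩ :=
    h ε hε k hk a P F w w_brownian w_indep w_adapted w_future
  exact ⟨u, h1, h2, ν, pν, h3, h4, h5⟩
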